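import Pool.Agent.Lib.MP_4fbe7c_an.FC.Iface2
import Pool.Agent.Lib.MP_4fbe7c_an.FC.H54.Core

/-!
Module CORU (helper54): the main differential inequality for any number of slow species.
-/

set_option autoImplicit false

open Set MeasureTheory

namespace Pool.Agent.Lib.MP_4fbe7c_an.FC.H54

open Pool.Agent.Lib.MP_4fbe7c_an.SD Pool.Agent.Lib.MP_4fbe7c_an.FC

theorem coru (h1 : YIneStatement) (h2 : LgdStatement) (h3 : TsuStatement) (h4 : LinFStatement)
    (h9 : LseStatement) : CorUStatement := by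
  intro L M P q ρ C₃ D K KE KF T m ψ ψ' ψ'' Ψ Ψ' N d u v w i₀ j S E E' F F' hX hT hP hq hρ hC₃ hD
    hK hT0 hi₀ hS hSK hout hj hDj hD1 hD2 hmass hsup hI hE hF
  have hL := hX.hL
  have hsol := hX.sol
  have hM0 := hX.hM0
  have hnn := nonneg hL hX.hm hX.hd hsol
  set K₄ : ℝ := 8 * M ^ 2 * P ^ 2 * L ^ 3 * Real.exp (2 * (1 + L * K)) / q with hK₄
  have hK₄0 : 0 < K₄ := by positivity
  set C₄ : ℝ := C₃ + K₄ with hC₄
  have hC₄0 : 0 < C₄ := by positivity
  have hd0 : 0 < d i₀ := hX.hd i₀
  have hdj : 0 < d j := hX.hd j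
  have hII : ∀ f : ℝ → ℝ, ContinuousOn f (Icc 0 L) → IntervalIntegrable f volume 0 L := by
    intro f hf
    apply ContinuousOn.intervalIntegrable
    rwa [uIcc_of_le hL.le]
  have cψ : ContinuousOn ψ (Icc 0 L) := hT.d1.continuousOn
  have cΨ : ContinuousOn Ψ (Icc 0 L) := hT.D1.continuousOn
  have hψ0 : ∫ x in (0)..L, ψ x = 0 := by
    rw [integral_deriv hL hT.D2 cψ, hT.B0, hT.BL, sub_zero]
  have hSne : S.Nonempty := ⟨i₀, hi₀⟩
  have hg : ∀ k t, 0 < gm L u k t := fun k t => Real.exp_pos _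
  have hW0 : ∀ t, 0 < ∑ k ∈ S, gm L u k t := fun t => Finset.sum_pos (fun k _ => hg k t) hSne
  have hW2 : ∀ t, T ≤ t → ∑ k ∈ S, gm L u k t ≤ 2 * M := by
    intro t htT
    have ht : 0 < t := lt_of_lt_of_le hT0 htT
    have h5 := (h9 L M m N d u v w S hX hSne (fun k hk => (hS k hk).1) t ht).1
    have h6 := hmass t htT
    have h7 : L * (∑ k ∈ S, gm L u k t) ≤ L * (2 * M) := by linarith
    exact le_of_mul_le_mul_left h7 hL
  -- the weighted mean of `y`
  set Y : ℝ → ℝ := fun t => ∑ k ∈ S, gm L u k t / (∑ i ∈ S, gm L u i t) * yy L u v k t with hY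
  -- the functional Φ
  set Φ : ℝ → ℝ := fun t => ∑ k ∈ Sᶜ, 1 / d k * ∫ x in (0)..L, u k t x * Ψ x with hΦ
  -- continuity in space
  have su : ∀ t, 0 < t → ∀ k, ContinuousOn (u k t) (Icc 0 L) := fun t ht k =>
    slice (hsol.cu k) (mem_Ici.2 ht.le)
  have sv : ∀ t, 0 < t → ∀ k, ContinuousOn (v k t) (Icc 0 L) := fun t ht k =>
    slice (hsol.cv k) (mem_Ioi.2 ht)
  have sU : ∀ t, 0 < t → ContinuousOn (fun x => ∑ k, u k t x) (Icc 0 L) := fun t ht =>
    continuousOn_finsetSum _ fun k _ => su t ht k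
  have hyy : ∀ t k, 0 ≤ yy L u v k t := fun t k =>
    intervalIntegral.integral_nonneg hL.le fun x _ => sq_nonneg _
  -- inequality (1)
  have key1 : ∀ t, T ≤ t → ∃ Φ' : ℝ, HasDerivAt Φ Φ' t ∧ ∀ I' : ℝ,
      U2 L u t ≤ -I' + 2 * M ^ 2 * L →
      q / 2 ≤ C₄ * (yy L u v i₀ t + Y t) + (F' t + Φ' - P / (2 * D) * (I' + E' t)) := by
    intro t htT
    have ht : 0 < t := lt_of_lt_of_le hT0 htT
    have hm := hX.hm
    set R : ℝ → ℝ := fun x => m x - ∑ k, u k t x with hR
    have cR : ContinuousOn R (Icc 0 L) := hm.sub (sU t ht)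
    set a : Fin N → ℝ := fun k => ∫ x in (0)..L, u k t x * ψ x with ha
    set b : Fin N → ℝ := fun k => ∫ x in (0)..L, u k t x * (m x - ∑ i, u i t x) * Ψ x with hb
    set c : Fin N → ℝ := fun k => ∫ x in (0)..L, u k t x * |R x| with hc
    have hder : HasDerivAt Φ (∑ k ∈ Sᶜ, 1 / d k * (d k * a k + b k)) t := by
      refine HasDerivAt.fun_sum fun k _ => ?_
      exact (h4 L M P q m ψ ψ' ψ'' Ψ Ψ' N d u v w k hX hT t ht).const_mul (1 / d k)
    refine ⟨_, hder, fun I' hI' => ?_⟩
    -- (A)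
    have eA : (∫ x in (0)..L, (m x - ∑ k, u k t x) * ψ x) = q - ∑ k, a k := by
      have e1 : (fun x => (m x - ∑ k, u k t x) * ψ x) =
          fun x => m x * ψ x - ∑ k, u k t x * ψ x := by
        funext x
        rw [sub_mul, Finset.sum_mul]
      have i1 : IntervalIntegrable (fun x => m x * ψ x) volume 0 L := hII _ (hm.mul cψ)
      have i2 : ∀ k ∈ (Finset.univ : Finset (Fin N)),
          IntervalIntegrable (fun x => u k t x * ψ x) volume 0 L := fun k _ =>
        hII _ ((su t ht k).mul cψ)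
      have i3 : IntervalIntegrable (fun x => ∑ k, u k t x * ψ x) volume 0 L :=
        hII _ (continuousOn_finsetSum _ fun k _ => (su t ht k).mul cψ)
      rw [e1, intervalIntegral.integral_sub i1 i3, hT.hq,
        intervalIntegral.integral_finsetSum i2]
    -- (B)
    have eB : ∑ k ∈ S, a k ≤ q / 8 + K₄ * Y t := by
      set c1 : ℝ := 4 * M * P ^ 2 * L ^ 3 * Real.exp (2 * (1 + L * K)) / q with hc1
      have hc10 : 0 < c1 := by positivity
      have h5 : ∀ k ∈ S, a k ≤ gm L u k t * (q / (16 * M) + c1 * yy L u v k t) := by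
        intro k hk
        have h6 := h3 L K P (q / (16 * M)) (u k t) (v k t) ψ hL hK (by positivity)
          (hsol.dx k t ht) (sv t ht k) cψ (fun x hx => (hS k hk).1 t ht x hx)
          (fun x hx => (hT.bd x hx).1) hψ0 (hSK k hk t htT)
        have h7 : P ^ 2 * L ^ 3 * Real.exp (2 * (1 + L * K)) / (4 * (q / (16 * M))) = c1 := by
          rw [hc1]
          field_simp
          ring
        rw [h7] at h6
        exact (le_abs_self _).trans h6
      have hWt := hW0 t
      have hWt2 := hW2 t htT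
      have h8 : ∑ k ∈ S, gm L u k t * yy L u v k t = (∑ k ∈ S, gm L u k t) * Y t := by
        rw [hY]
        simp only
        rw [Finset.mul_sum]
        refine Finset.sum_congr rfl fun k _ => ?_
        field_simp
      have hYt : 0 ≤ Y t := Finset.sum_nonneg fun k _ =>
        mul_nonneg (div_nonneg (hg k t).le hWt.le) (hyy t k)
      calc ∑ k ∈ S, a k ≤ ∑ k ∈ S, gm L u k t * (q / (16 * M) + c1 * yy L u v k t) :=
            Finset.sum_le_sum h5
        _ = (∑ k ∈ S, gm L u k t) * (q / (16 * M)) +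
            c1 * ((∑ k ∈ S, gm L u k t) * Y t) := by
          rw [← h8, Finset.mul_sum, Finset.sum_mul, ← Finset.sum_add_distrib]
          exact Finset.sum_congr rfl fun k _ => by ring
        _ ≤ 2 * M * (q / (16 * M)) + c1 * (2 * M * Y t) := by
          gcongr
        _ = q / 8 + K₄ * Y t := by
          rw [hK₄, hc1]
          field_simp
          ring
    -- (C)
    have hc0 : ∀ k, 0 ≤ c k := fun k => intervalIntegral.integral_nonneg hL.le fun x hx =>
      mul_nonneg (hnn k t ht.le x hx) (abs_nonneg _)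
    have eC1 : ∀ k ∈ Sᶜ, -(1 / d k * b k) ≤ P / D * c k := by
      intro k hk
      have hk' : k ∉ S := Finset.mem_compl.1 hk
      rcases hout k hk' with h | h
      · have h5 : |b k| ≤ P * c k := by
          have h6 : |b k| ≤ ∫ x in (0)..L, |u k t x * (m x - ∑ i, u i t x) * Ψ x| :=
            intervalIntegral.abs_integral_le_integral_abs hL.le
          refine h6.trans ?_
          have h7 : P * c k = ∫ x in (0)..L, P * (u k t x * |R x|) := by
            rw [intervalIntegral.integral_const_mul]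
          rw [h7]
          refine intervalIntegral.integral_mono_on hL.le
            (hII _ (((su t ht k).mul cR).mul cΨ).abs)
            (hII _ (((su t ht k).mul cR.abs).const_mul P)) fun x hx => ?_
          rw [abs_mul, abs_mul, abs_of_nonneg (hnn k t ht.le x hx)]
          have h8 := (hT.bd x hx).2.2
          have h9 : 0 ≤ u k t x * |R x| := mul_nonneg (hnn k t ht.le x hx) (abs_nonneg _)
          calc u k t x * |m x - ∑ i, u i t x| * |Ψ x| ≤ u k t x * |R x| * P :=
                mul_le_mul_of_nonneg_left h8 h9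
            _ = P * (u k t x * |R x|) := by ring
        have h10 : 0 < d k := hX.hd k
        have h11 : 1 / d k * |b k| ≤ 1 / D * (P * c k) := by
          apply mul_le_mul (one_div_le_one_div_of_le hD h) h5 (abs_nonneg _) (by positivity)
        have h12 : -(1 / d k * b k) ≤ 1 / d k * |b k| := by
          have h13 : -b k ≤ |b k| := neg_le_abs _
          have h14 : 0 < 1 / d k := by positivity
          nlinarith
        calc -(1 / d k * b k) ≤ 1 / D * (P * c k) := h12.trans h11
          _ = P / D * c k := by ring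
      · have h5 : b k = 0 := by
          have h6 : b k = ∫ x in (0)..L, (0 : ℝ) := by
            refine intervalIntegral.integral_congr fun x hx => ?_
            rw [uIcc_of_le hL.le] at hx
            simp [h t ht.le x hx]
          rw [h6]
          simp
        rw [h5, mul_zero, neg_zero]
        have := hc0 k
        positivity
    have eC2 : ∑ k ∈ Sᶜ, c k ≤ (U2 L u t + R2 L m u t) / 2 := by
      have h5 : ∑ k ∈ Sᶜ, c k ≤ ∑ k, c k :=
        Finset.sum_le_sum_of_subset_of_nonneg (Finset.subset_univ _) fun k _ _ => hc0 k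
      refine h5.trans ?_
      have i2 : ∀ k ∈ (Finset.univ : Finset (Fin N)),
          IntervalIntegrable (fun x => u k t x * |R x|) volume 0 L := fun k _ =>
        hII _ ((su t ht k).mul cR.abs)
      rw [← intervalIntegral.integral_finsetSum i2]
      have h6 : (U2 L u t + R2 L m u t) / 2 =
          ∫ x in (0)..L, ((∑ k, u k t x) ^ 2 + (m x - ∑ k, u k t x) ^ 2) / 2 := by
        have i4 : IntervalIntegrable (fun x => (∑ k, u k t x) ^ 2) volume 0 L :=
          hII _ ((sU t ht).pow 2)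
        have i5 : IntervalIntegrable (fun x => (m x - ∑ k, u k t x) ^ 2) volume 0 L :=
          hII _ (cR.pow 2)
        rw [intervalIntegral.integral_div, intervalIntegral.integral_add i4 i5]
        rfl
      rw [h6]
      refine intervalIntegral.integral_mono_on hL.le
        (hII _ (continuousOn_finsetSum _ fun k _ => (su t ht k).mul cR.abs))
        (hII _ ((((sU t ht).pow 2).add (cR.pow 2)).div_const 2)) fun x hx => ?_
      rw [← Finset.sum_mul]
      have h7 : |R x| ^ 2 = (m x - ∑ k, u k t x) ^ 2 := sq_abs _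
      nlinarith [sq_nonneg ((∑ k, u k t x) - |R x|)]
    have eC : ∑ k ∈ Sᶜ, a k ≤ (∑ k ∈ Sᶜ, 1 / d k * (d k * a k + b k)) +
        P / (2 * D) * (U2 L u t + R2 L m u t) := by
      have h5 : ∑ k ∈ Sᶜ, 1 / d k * (d k * a k + b k) = ∑ k ∈ Sᶜ, a k +
          ∑ k ∈ Sᶜ, 1 / d k * b k := by
        rw [← Finset.sum_add_distrib]
        refine Finset.sum_congr rfl fun k _ => ?_
        have : d k ≠ 0 := (hX.hd k).ne'
        field_simp
      rw [h5]
      have h6 : -(∑ k ∈ Sᶜ, 1 / d k * b k) ≤ P / D * ∑ k ∈ Sᶜ, c k := by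
        rw [← Finset.sum_neg_distrib, Finset.mul_sum]
        exact Finset.sum_le_sum eC1
      have h7 : P / D * ∑ k ∈ Sᶜ, c k ≤ P / D * ((U2 L u t + R2 L m u t) / 2) :=
        mul_le_mul_of_nonneg_left eC2 (by positivity)
      have h8 : P / D * ((U2 L u t + R2 L m u t) / 2) =
          P / (2 * D) * (U2 L u t + R2 L m u t) := by ring
      linarith
    -- (D)
    have hE' := (hE t htT).2.1
    have hF' := (hF t htT).2.1
    have hsum : ∑ k, a k = ∑ k ∈ S, a k + ∑ k ∈ Sᶜ, a k :=
      (Finset.sum_add_sum_compl S a).symm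
    have hPD : P / (2 * D) * (U2 L u t + R2 L m u t) ≤
        P / (2 * D) * (-(I' + E' t)) + q / 8 := by
      have h5 : U2 L u t + R2 L m u t ≤ -(I' + E' t) + (2 * M ^ 2 * L + ρ) := by linarith
      have h6 : 0 < P / (2 * D) := by positivity
      have h7 : P / (2 * D) * (2 * M ^ 2 * L + ρ) ≤ q / 8 := by
        rw [div_mul_eq_mul_div, div_le_div_iff₀ (by positivity) (by norm_num)]
        nlinarith
      calc P / (2 * D) * (U2 L u t + R2 L m u t)
          ≤ P / (2 * D) * (-(I' + E' t) + (2 * M ^ 2 * L + ρ)) :=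
            mul_le_mul_of_nonneg_left h5 h6.le
        _ = P / (2 * D) * (-(I' + E' t)) + P / (2 * D) * (2 * M ^ 2 * L + ρ) := by ring
        _ ≤ _ := by linarith
    have hYt : 0 ≤ Y t := Finset.sum_nonneg fun k _ =>
      mul_nonneg (div_nonneg (hg k t).le (hW0 t).le) (hyy t k)
    have hC3y : 0 ≤ C₃ * Y t := mul_nonneg hC₃ hYt
    have hK4y : 0 ≤ K₄ * yy L u v i₀ t := mul_nonneg hK₄0.le (hyy t i₀)
    rw [eA] at hF'
    have e2 : C₄ * (yy L u v i₀ t + Y t) = C₃ * yy L u v i₀ t + C₃ * Y t +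
        (K₄ * yy L u v i₀ t + K₄ * Y t) := by rw [hC₄]; ring
    rw [e2]
    linarith
  -- the functional
  set Om : ℝ → ℝ := fun t => lg L u j t + L ^ 2 * yy L u v j t -
    1 / 2 * (lg L u i₀ t + L * Real.log (∑ k ∈ S, gm L u k t)) + L ^ 2 / d j * E t -
    d i₀ / (2 * C₄) * (F t + Φ t - P / (2 * D) * (mass L u t + E t)) with hOm
  set c₀ : ℝ := d i₀ * q / (8 * C₄) with hc₀
  have hc₀0 : 0 < c₀ := by positivity
  have key2 : ∀ t, T ≤ t → ∃ Om' : ℝ, HasDerivAt Om Om' t ∧ Om' ≤ -c₀ := by
    intro t htT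
    have ht : 0 < t := lt_of_lt_of_le hT0 htT
    obtain ⟨I', hI'1, hI'2⟩ := hI t htT
    obtain ⟨Φ', hΦ'1, hΦ'2⟩ := key1 t htT
    have h5 := hΦ'2 I' hI'2
    obtain ⟨y', hy1, hy2⟩ := h1 L M m N d u v w j hX hj t ht
    have hlj := h2 L M m N d u v w j hX hj t ht
    have hl0 := h2 L M m N d u v w i₀ hX (hS i₀ hi₀).1 t ht
    have hlk := (h9 L M m N d u v w S hX hSne (fun k hk => (hS k hk).1) t ht).2
    obtain ⟨hE1, hE2, _⟩ := hE t htT
    obtain ⟨hF1, _, _⟩ := hF t htT
    refine ⟨(d j * yy L u v j t + R1 L m u t) + L ^ 2 * y' -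
      1 / 2 * ((d i₀ * yy L u v i₀ t + R1 L m u t) +
        ((∑ k ∈ S, gm L u k t / (∑ i ∈ S, gm L u i t) * (d k * yy L u v k t)) + R1 L m u t)) +
      L ^ 2 / d j * E' t -
      d i₀ / (2 * C₄) * (F' t + Φ' - P / (2 * D) * (I' + E' t)), ?_, ?_⟩
    · exact ((((hlj.add (hy1.const_mul (L ^ 2))).sub ((hl0.add hlk).const_mul (1 / 2))).add
        (hE1.const_mul (L ^ 2 / d j))).sub
        (((hF1.add hΦ'1).sub ((hI'1.add hE1).const_mul (P / (2 * D)))).const_mul
          (d i₀ / (2 * C₄))))
    · have e2 : d i₀ * Y t ≤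
          ∑ k ∈ S, gm L u k t / (∑ i ∈ S, gm L u i t) * (d k * yy L u v k t) := by
        rw [hY]
        simp only
        rw [Finset.mul_sum]
        refine Finset.sum_le_sum fun k hk => ?_
        have h6 : 0 ≤ gm L u k t / (∑ i ∈ S, gm L u i t) :=
          div_nonneg (hg k t).le (hW0 t).le
        have h7 := mul_le_mul_of_nonneg_right (hS k hk).2 (hyy t k)
        calc d i₀ * (gm L u k t / (∑ i ∈ S, gm L u i t) * yy L u v k t) =
              gm L u k t / (∑ i ∈ S, gm L u i t) * (d i₀ * yy L u v k t) := by ring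
          _ ≤ _ := mul_le_mul_of_nonneg_left h7 h6
      have e3 : L ^ 2 * y' ≤ -(d j * yy L u v j t) + L ^ 2 / d j * R2 L m u t := by
        have h6 : L ^ 2 * y' ≤ L ^ 2 * (-(d j / L ^ 2 * yy L u v j t) + R2 L m u t / d j) :=
          mul_le_mul_of_nonneg_left hy2 (sq_nonneg L)
        have h7 : L ^ 2 * (-(d j / L ^ 2 * yy L u v j t) + R2 L m u t / d j) =
            -(d j * yy L u v j t) + L ^ 2 / d j * R2 L m u t := by
          field_simp
        linarith
      have e4 : L ^ 2 / d j * R2 L m u t ≤ L ^ 2 / d j * (-E' t + ρ) :=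
        mul_le_mul_of_nonneg_left hE2 (by positivity)
      have e5 : L ^ 2 / d j * ρ ≤ c₀ := by
        have h6 : L ^ 2 / d j * ρ ≤ L ^ 2 / D * ρ :=
          mul_le_mul_of_nonneg_right (div_le_div_of_nonneg_left (sq_nonneg L) hD hDj) hρ
        refine h6.trans ?_
        rw [hc₀, div_mul_eq_mul_div, div_le_div_iff₀ hD (by positivity)]
        linarith
      have e6 : d i₀ / (2 * C₄) * (q / 2) ≤ d i₀ / (2 * C₄) * (C₄ * (yy L u v i₀ t + Y t) +
          (F' t + Φ' - P / (2 * D) * (I' + E' t))) :=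
        mul_le_mul_of_nonneg_left h5 (by positivity)
      have e7 : d i₀ / (2 * C₄) * (q / 2) = 2 * c₀ := by
        rw [hc₀]
        field_simp
        ring
      have e8 : d i₀ / (2 * C₄) * (C₄ * (yy L u v i₀ t + Y t) +
          (F' t + Φ' - P / (2 * D) * (I' + E' t))) = d i₀ / 2 * (yy L u v i₀ t + Y t) +
          d i₀ / (2 * C₄) * (F' t + Φ' - P / (2 * D) * (I' + E' t)) := by
        field_simp
      rw [e7, e8] at e6
      have e9 : L ^ 2 / d j * (-E' t + ρ) = -(L ^ 2 / d j * E' t) + L ^ 2 / d j * ρ := by ring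
      linarith
  have key3 := linear_decay key2
  -- bounds
  have hlgS : ∀ t, T ≤ t → 1 / 2 * (lg L u i₀ t + L * Real.log (∑ k ∈ S, gm L u k t)) ≤
      1 / 2 * (L * Real.log (M + 1) + L * Real.log (2 * M)) := by
    intro t htT
    have ht : 0 < t := lt_of_lt_of_le hT0 htT
    have h6 : lg L u i₀ t ≤ ∫ _x in (0)..L, Real.log (M + 1) := by
      refine intervalIntegral.integral_mono_on hL.le
        (hII _ ((su t ht i₀).log fun x hx => ((hS i₀ hi₀).1 t ht x hx).ne'))
        intervalIntegrable_const fun x hx => ?_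
      exact Real.log_le_log ((hS i₀ hi₀).1 t ht x hx) (hsup t htT x hx)
    rw [intervalIntegral.integral_const, smul_eq_mul, sub_zero] at h6
    have h7 : L * Real.log (∑ k ∈ S, gm L u k t) ≤ L * Real.log (2 * M) :=
      mul_le_mul_of_nonneg_left (Real.log_le_log (hW0 t) (hW2 t htT)) hL.le
    linarith
  have hΦb : ∀ t, T ≤ t → Φ t ≤ P / D * (2 * M * L) := by
    intro t htT
    have ht : 0 < t := lt_of_lt_of_le hT0 htT
    have h5 : ∀ k ∈ Sᶜ, 1 / d k * (∫ x in (0)..L, u k t x * Ψ x) ≤
        P / D * ∫ x in (0)..L, u k t x := by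
      intro k hk
      have hk' : k ∉ S := Finset.mem_compl.1 hk
      have hk0 : 0 ≤ ∫ x in (0)..L, u k t x :=
        intervalIntegral.integral_nonneg hL.le fun x hx => hnn k t ht.le x hx
      rcases hout k hk' with h | h
      · have h6 : (∫ x in (0)..L, u k t x * Ψ x) ≤ P * ∫ x in (0)..L, u k t x := by
          rw [← intervalIntegral.integral_const_mul]
          refine intervalIntegral.integral_mono_on hL.le (hII _ ((su t ht k).mul cΨ))
            (hII _ ((su t ht k).const_mul P)) fun x hx => ?_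
          have h7 := (abs_le.1 (hT.bd x hx).2.2).2
          have h8 := hnn k t ht.le x hx
          nlinarith
        have h10 : 0 < d k := hX.hd k
        calc 1 / d k * (∫ x in (0)..L, u k t x * Ψ x) ≤
              1 / d k * (P * ∫ x in (0)..L, u k t x) :=
              mul_le_mul_of_nonneg_left h6 (by positivity)
          _ ≤ 1 / D * (P * ∫ x in (0)..L, u k t x) :=
              mul_le_mul_of_nonneg_right (one_div_le_one_div_of_le hD h) (by positivity)
          _ = _ := by ring
      · have h6 : (∫ x in (0)..L, u k t x * Ψ x) = 0 := by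
          have h7 : (∫ x in (0)..L, u k t x * Ψ x) = ∫ x in (0)..L, (0 : ℝ) := by
            refine intervalIntegral.integral_congr fun x hx => ?_
            rw [uIcc_of_le hL.le] at hx
            simp [h t ht.le x hx]
          rw [h7]
          simp
        rw [h6, mul_zero]
        positivity
    have h6 : Φ t ≤ P / D * ∑ k ∈ Sᶜ, ∫ x in (0)..L, u k t x := by
      rw [Finset.mul_sum]
      exact Finset.sum_le_sum h5
    have h7 : ∑ k ∈ Sᶜ, ∫ x in (0)..L, u k t x ≤ mass L u t := by
      have h8 : mass L u t = ∑ k, ∫ x in (0)..L, u k t x := by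
        unfold mass
        exact intervalIntegral.integral_finsetSum fun k _ => hII _ (su t ht k)
      rw [h8]
      exact Finset.sum_le_sum_of_subset_of_nonneg (Finset.subset_univ _) fun k _ _ =>
        intervalIntegral.integral_nonneg hL.le fun x hx => hnn k t ht.le x hx
    have h8 := hmass t htT
    calc Φ t ≤ P / D * ∑ k ∈ Sᶜ, ∫ x in (0)..L, u k t x := h6
      _ ≤ P / D * (2 * M * L) := mul_le_mul_of_nonneg_left (h7.trans h8) (by positivity)
  have hmass0 : ∀ t, T ≤ t → 0 ≤ mass L u t := by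
    intro t htT
    have ht : 0 < t := lt_of_lt_of_le hT0 htT
    exact intervalIntegral.integral_nonneg hL.le fun x hx =>
      Finset.sum_nonneg fun k _ => hnn k t ht.le x hx
  refine ⟨c₀, Om T + c₀ * T + 1 / 2 * (L * Real.log (M + 1) + L * Real.log (2 * M)) +
    L ^ 2 / d j * |KE| +
    d i₀ / (2 * C₄) * (|KF| + P / D * (2 * M * L) + P / (2 * D) * |KE|), hc₀0, fun t htT => ?_⟩
  have ht : 0 < t := lt_of_lt_of_le hT0 htT
  have g1 := key3 t htT
  have g2 := hlgS t htT
  have g3 := hΦb t htT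
  have g4 := hmass0 t htT
  have g5 := (hE t htT).2.2
  have g6 := (hF t htT).2.2
  have g7 : -(L ^ 2 / d j * E t) ≤ L ^ 2 / d j * |KE| := by
    have h5 : -E t ≤ |KE| := by linarith [le_abs_self KE]
    have h6 : 0 ≤ L ^ 2 / d j := by positivity
    nlinarith
  have g8 : d i₀ / (2 * C₄) * (F t + Φ t - P / (2 * D) * (mass L u t + E t)) ≤
      d i₀ / (2 * C₄) * (|KF| + P / D * (2 * M * L) + P / (2 * D) * |KE|) := by
    refine mul_le_mul_of_nonneg_left ?_ (by positivity)
    have h5 : F t ≤ |KF| := g6.trans (le_abs_self _)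
    have h6 : -(P / (2 * D) * (mass L u t + E t)) ≤ P / (2 * D) * |KE| := by
      have h7 : -(mass L u t + E t) ≤ |KE| := by linarith [le_abs_self KE]
      have h8 : 0 ≤ P / (2 * D) := by positivity
      nlinarith
    linarith
  have g9 : 0 ≤ L ^ 2 * yy L u v j t := mul_nonneg (sq_nonneg L) (hyy t j)
  have g10 : Om t = lg L u j t + L ^ 2 * yy L u v j t -
    1 / 2 * (lg L u i₀ t + L * Real.log (∑ k ∈ S, gm L u k t)) + L ^ 2 / d j * E t -
    d i₀ / (2 * C₄) * (F t + Φ t - P / (2 * D) * (mass L u t + E t)) := rfl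
  rw [g10] at g1
  linarith

end Pool.Agent.Lib.MP_4fbe7c_an.FC.H54
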