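import Pool.Agent.Lib.MP_4fbe7c_an.FC.Iface
import Pool.Agent.Lib.MP_4fbe7c_an.SD.Lyap

/-!
Module TWO (helper54): the two-species functional (helper50's) with a decaying perturbation.
-/

set_option autoImplicit false

open Set MeasureTheory

namespace Pool.Agent.Lib.MP_4fbe7c_an.FC.H54

open Pool.Agent.Lib.MP_4fbe7c_an.SD Pool.Agent.Lib.MP_4fbe7c_an.FC Lyap

theorem two_identity {a a1 a2 m U u0 v0 w0 u1 v1 w1 d0 d1 q : ℝ} (ha : a ≠ 0) (hu : u0 ≠ 0)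
    (hm : d0 * a2 + a * (m - a) = 0) :
    (u1 * (d1 * w1 + u1 * (m - U)) +
        a ^ 2 * (-(q ^ 2 / (u0 / a)) * ((d0 * w0 + u0 * (m - U)) / a))) -
      (d1 * (v1 * v1 + u1 * w1) -
        d0 * (2 * u1 * v1 * (a1 / a) + u1 ^ 2 * ((a2 * a - a1 * a1) / a ^ 2)) +
        d0 * (-((-(2 * q) * ((v0 * a - u0 * a1) / a ^ 2)) * (u0 / a) -
            q ^ 2 * ((v0 * a - u0 * a1) / a ^ 2)) / (u0 / a) ^ 2 * (a * v0 - u0 * a1) +
          -(q ^ 2 / (u0 / a)) * (a * w0 - u0 * a2))) =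
      -(d1 - d0) * v1 ^ 2 - d0 * (v1 - a1 / a * u1) ^ 2 -
        d0 * ((v0 * a - u0 * a1) ^ 2 / u0 ^ 2 * (2 * q * (u0 / a) + q ^ 2)) +
        (a - U) * (u1 ^ 2 - a ^ 2 * q ^ 2) := by
  have hm' : m = a - d0 * a2 / a := by
    field_simp
    linarith
  rw [hm']
  field_simp
  ring

theorem two (hG : GfuStatement) : TwoStatement := by
  intro L M m θ θ' θ'' N d u v w i₀ i₁ hX hθ hne hpos t ht
  obtain ⟨hG1, hG2, hG3, _, _⟩ := hG
  have hL := hX.hL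
  have hsol := hX.sol
  have hm := hX.hm
  have hd := hX.hd
  have hu0 := nonneg hL hm hd hsol
  have cθ : ContinuousOn θ (Icc 0 L) := derivOn_continuousOn hθ.d1
  have cθ' : ContinuousOn θ' (Icc 0 L) := derivOn_continuousOn hθ.d2
  have hd0 : d i₀ ≠ 0 := (hd i₀).ne'
  have cθ'' : ContinuousOn θ'' (Icc 0 L) := by
    have h1 : ContinuousOn (fun x => -(θ x * (m x - θ x)) / d i₀) (Icc 0 L) := by fun_prop
    refine h1.congr fun x hx => ?_
    have h2 := hθ.eq x hx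
    show θ'' x = -(θ x * (m x - θ x)) / d i₀
    rw [eq_div_iff hd0]
    linarith
  have hθne : ∀ x ∈ Icc 0 L, θ x ≠ 0 := fun x hx => (hθ.pos x hx).ne'
  have cu : ∀ i, ContinuousOn (fun p : ℝ × ℝ => u i p.1 p.2) (Ioi 0 ×ˢ Icc 0 L) := fun i =>
    (hsol.cu i).mono (prod_mono Ioi_subset_Ici_self subset_rfl)
  let ut : Fin N → ℝ → ℝ → ℝ := fun i s x => d i * w i s x + u i s x * (m x - ∑ j, u j s x)
  let pp : ℝ → ℝ → ℝ := fun s x => u i₀ s x / θ x
  have hpp : ∀ s, 0 < s → ∀ x ∈ Icc 0 L, 0 < pp s x := fun s hs x hx =>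
    div_pos (hpos s hs x hx) (hθ.pos x hx)
  let g : ℝ → ℝ → ℝ := fun s x => u i₁ s x ^ 2 / 2 + θ x ^ 2 * Gf (pp s x)
  let gt : ℝ → ℝ → ℝ := fun s x => u i₁ s x * ut i₁ s x +
    θ x ^ 2 * (-((max (1 - pp s x) 0) ^ 2 / pp s x) * (ut i₀ s x / θ x))
  have spθ : ContinuousOn (fun p : ℝ × ℝ => θ p.2) (Ioi 0 ×ˢ Icc 0 L) := space_continuousOn cθ
  have spm : ContinuousOn (fun p : ℝ × ℝ => m p.2) (Ioi 0 ×ˢ Icc 0 L) := space_continuousOn hm
  have cut : ∀ i, ContinuousOn (fun p : ℝ × ℝ => ut i p.1 p.2) (Ioi 0 ×ˢ Icc 0 L) := by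
    intro i
    have h1 : ContinuousOn (fun p : ℝ × ℝ => ∑ j, u j p.1 p.2) (Ioi 0 ×ˢ Icc 0 L) :=
      continuousOn_finsetSum _ fun j _ => cu j
    exact ((hsol.cw i).const_mul (d i)).add ((cu i).mul (spm.sub h1))
  have spne : ∀ p ∈ (Ioi (0 : ℝ)) ×ˢ (Icc 0 L), θ p.2 ≠ 0 := fun p hp => hθne p.2 hp.2
  have cpp : ContinuousOn (fun p : ℝ × ℝ => pp p.1 p.2) (Ioi 0 ×ˢ Icc 0 L) :=
    (cu i₀).div spθ spne
  have cGf : ContinuousOn (fun p : ℝ × ℝ => Gf (pp p.1 p.2)) (Ioi 0 ×ˢ Icc 0 L) := by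
    intro p hp
    have h1 : ContinuousAt Gf (pp p.1 p.2) := (hG1 _ (hpp p.1 hp.1 p.2 hp.2)).continuousAt
    exact ContinuousAt.comp_continuousWithinAt (f := fun p : ℝ × ℝ => pp p.1 p.2) h1 (cpp p hp)
  have cg : ContinuousOn (fun p : ℝ × ℝ => g p.1 p.2) (Ioi 0 ×ˢ Icc 0 L) :=
    (((cu i₁).pow 2).div_const 2).add ((spθ.pow 2).mul cGf)
  have cmax : ContinuousOn (fun p : ℝ × ℝ => max (1 - pp p.1 p.2) 0) (Ioi 0 ×ˢ Icc 0 L) :=
    (continuousOn_const.sub cpp).sup continuousOn_const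
  have hpne : ∀ p ∈ (Ioi (0 : ℝ)) ×ˢ (Icc 0 L), pp p.1 p.2 ≠ 0 := fun p hp =>
    (hpp p.1 hp.1 p.2 hp.2).ne'
  have cgt : ContinuousOn (fun p : ℝ × ℝ => gt p.1 p.2) (Ioi 0 ×ˢ Icc 0 L) :=
    ((cu i₁).mul (cut i₁)).add ((spθ.pow 2).mul
      ((((cmax.pow 2).div cpp hpne).neg).mul ((cut i₀).div spθ spne)))
  have hV := hasDerivAt_integral hL cg cgt (fun s hs x hx => by
    have h1 := (hsol.dt i₁ s hs x hx).fun_pow 2
    have h2 := hsol.dt i₀ s hs x hx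
    have h3 : HasDerivAt (fun r => pp r x) (ut i₀ s x / θ x) s := h2.div_const (θ x)
    have h4 := (hG1 (pp s x) (hpp s hs x hx)).comp s h3
    have h5 := (h1.div_const 2).add (h4.const_mul (θ x ^ 2))
    have e : ((2 : ℕ) : ℝ) * u i₁ s x ^ (2 - 1) *
        (d i₁ * w i₁ s x + u i₁ s x * (m x - ∑ j, u j s x)) / 2 +
        θ x ^ 2 * (-((max (1 - pp s x) 0) ^ 2 / pp s x) * (ut i₀ s x / θ x)) = gt s x := by
      simp only [gt, ut]
      norm_num
      ring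
    rw [e] at h5
    exact h5) t ht
  have hFf0 : 0 ≤ Ff L θ u i₀ i₁ t := by
    refine intervalIntegral.integral_nonneg hL.le fun x hx => ?_
    have h1 := hG2 (u i₀ t x / θ x) (hpp t ht x hx)
    positivity
  refine ⟨hFf0, ∫ x in (0)..L, gt t x, hV, ?_⟩
  -- slices
  have su : ∀ i, ContinuousOn (u i t) (Icc 0 L) := fun i => slice_continuousOn ht (cu i)
  have sv : ∀ i, ContinuousOn (v i t) (Icc 0 L) := fun i => slice_continuousOn ht (hsol.cv i)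
  have sw : ∀ i, ContinuousOn (w i t) (Icc 0 L) := fun i => slice_continuousOn ht (hsol.cw i)
  have sne : ∀ x ∈ Icc 0 L, u i₀ t x ≠ 0 := fun x hx => (hpos t ht x hx).ne'
  have sgt : ContinuousOn (gt t) (Icc 0 L) := slice_continuousOn ht cgt
  have spp : ContinuousOn (pp t) (Icc 0 L) := slice_continuousOn ht cpp
  have smax : ContinuousOn (fun x => max (1 - pp t x) 0) (Icc 0 L) :=
    (continuousOn_const.sub spp).sup continuousOn_const
  have sppne : ∀ x ∈ Icc 0 L, pp t x ≠ 0 := fun x hx => (hpp t ht x hx).ne'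
  -- the divergence term
  let J : ℝ → ℝ := fun x => d i₁ * (u i₁ t x * v i₁ t x) -
    d i₀ * (u i₁ t x ^ 2 * (θ' x / θ x)) +
    d i₀ * (-((max (1 - pp t x) 0) ^ 2 / pp t x) * (θ x * v i₀ t x - u i₀ t x * θ' x))
  let J' : ℝ → ℝ := fun x =>
    d i₁ * (v i₁ t x * v i₁ t x + u i₁ t x * w i₁ t x) -
    d i₀ * (2 * u i₁ t x * v i₁ t x * (θ' x / θ x) +
      u i₁ t x ^ 2 * ((θ'' x * θ x - θ' x * θ' x) / θ x ^ 2)) +
    d i₀ * (-((-(2 * max (1 - pp t x) 0) * ((v i₀ t x * θ x - u i₀ t x * θ' x) / θ x ^ 2)) *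
          (u i₀ t x / θ x) - (max (1 - pp t x) 0) ^ 2 *
          ((v i₀ t x * θ x - u i₀ t x * θ' x) / θ x ^ 2)) / (u i₀ t x / θ x) ^ 2 *
          (θ x * v i₀ t x - u i₀ t x * θ' x) +
        -((max (1 - pp t x) 0) ^ 2 / (u i₀ t x / θ x)) * (θ x * w i₀ t x - u i₀ t x * θ'' x))
  have hJ : DerivOn L J J' := by
    intro x hx
    have e1 := hθ.d1 x hx
    have e2 := hθ.d2 x hx
    have a0 := hsol.dx i₀ t ht x hx
    have a1 := hsol.dxx i₀ t ht x hx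
    have b0 := hsol.dx i₁ t ht x hx
    have b1 := hsol.dxx i₁ t ht x hx
    have hθx := hθne x hx
    have hp : HasDerivWithinAt (pp t) ((v i₀ t x * θ x - u i₀ t x * θ' x) / θ x ^ 2)
        (Icc 0 L) x := a0.div e1 hθx
    have hQ : HasDerivWithinAt (fun y => (max (1 - pp t y) 0) ^ 2)
        (-(2 * max (1 - pp t x) 0) * ((v i₀ t x * θ x - u i₀ t x * θ' x) / θ x ^ 2))
        (Icc 0 L) x := (hG3 (pp t x)).comp_hasDerivWithinAt x hp
    have hgg := (hQ.div hp (sppne x hx)).neg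
    have c1 := (b0.mul b1).const_mul (d i₁)
    have c2 := ((b0.fun_pow 2).mul (e2.div e1 hθx)).const_mul (d i₀)
    have c3 := (e1.mul a1).sub (a0.mul e2)
    have c4 := (hgg.mul c3).const_mul (d i₀)
    have c5 := (c1.sub c2).add c4
    refine c5.congr_deriv ?_
    simp only [J', pp, Pi.div_apply, Pi.neg_apply, Pi.mul_apply, Pi.sub_apply]
    push_cast
    ring
  have hJ0 : J 0 = 0 := by
    simp only [J]
    rw [hsol.b0 i₀ t ht, hsol.b0 i₁ t ht, hθ.b0]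
    ring
  have hJL : J L = 0 := by
    simp only [J]
    rw [hsol.bL i₀ t ht, hsol.bL i₁ t ht, hθ.bL]
    ring
  have cJ' : ContinuousOn J' (Icc 0 L) := by
    have hθ2 : ∀ x ∈ Icc 0 L, θ x ^ 2 ≠ 0 := fun x hx => pow_ne_zero 2 (hθne x hx)
    have hp2 : ∀ x ∈ Icc 0 L, (u i₀ t x / θ x) ^ 2 ≠ 0 := fun x hx =>
      pow_ne_zero 2 (sppne x hx)
    have spp' : ContinuousOn (fun x => u i₀ t x / θ x) (Icc 0 L) := spp
    have k1 : ContinuousOn (fun x => θ' x / θ x) (Icc 0 L) := cθ'.div cθ hθne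
    have k2 : ContinuousOn (fun x => (θ'' x * θ x - θ' x * θ' x) / θ x ^ 2) (Icc 0 L) :=
      ((cθ''.mul cθ).sub (cθ'.mul cθ')).div (cθ.pow 2) hθ2
    have k3 : ContinuousOn (fun x => (v i₀ t x * θ x - u i₀ t x * θ' x) / θ x ^ 2) (Icc 0 L) :=
      (((sv i₀).mul cθ).sub ((su i₀).mul cθ')).div (cθ.pow 2) hθ2
    have k4 : ContinuousOn (fun x => θ x * v i₀ t x - u i₀ t x * θ' x) (Icc 0 L) :=
      (cθ.mul (sv i₀)).sub ((su i₀).mul cθ')
    have k5 : ContinuousOn (fun x => θ x * w i₀ t x - u i₀ t x * θ'' x) (Icc 0 L) :=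
      (cθ.mul (sw i₀)).sub ((su i₀).mul cθ'')
    have k6 : ContinuousOn (fun x => -((max (1 - pp t x) 0) ^ 2 / (u i₀ t x / θ x)))
        (Icc 0 L) := ((smax.pow 2).div spp' sppne).neg
    have k7 : ContinuousOn (fun x => -(2 * max (1 - pp t x) 0)) (Icc 0 L) :=
      (smax.const_mul 2).neg
    have k8 := (((((k7.mul k3).mul spp').sub ((smax.pow 2).mul k3)).neg).div
      (spp'.pow 2) hp2)
    exact (((((sv i₁).mul (sv i₁)).add ((su i₁).mul (sw i₁))).const_mul (d i₁)).sub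
      ((((((su i₁).const_mul 2).mul (sv i₁)).mul k1).add
        (((su i₁).pow 2).mul k2)).const_mul (d i₀))).add
      (((k8.mul k4).add (k6.mul k5)).const_mul (d i₀))
  have hint := integral_deriv hL hJ cJ'
  rw [hJ0, hJL, sub_zero] at hint
  have hII : ∀ f : ℝ → ℝ, ContinuousOn f (Icc 0 L) → IntervalIntegrable f volume 0 L := by
    intro f hf
    apply ContinuousOn.intervalIntegrable
    rwa [uIcc_of_le hL.le]
  have e : ∫ x in (0)..L, gt t x = ∫ x in (0)..L, (gt t x - J' x) := by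
    rw [intervalIntegral.integral_sub (hII _ sgt) (hII _ cJ'), hint, sub_zero]
  -- continuity of the final integrand
  have sζ : ContinuousOn (fun x => ∑ k ∈ (Finset.univ.erase i₀).erase i₁, u k t x) (Icc 0 L) :=
    continuousOn_finsetSum _ fun k _ => su k
  have sH : ContinuousOn (fun x => Hf (u i₀ t x / θ x) (u i₁ t x / θ x)) (Icc 0 L) := by
    have k1 : ContinuousOn (fun x => u i₁ t x / θ x) (Icc 0 L) := (su i₁).div cθ hθne
    have k2 : ContinuousOn (fun x => u i₀ t x / θ x) (Icc 0 L) := spp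
    exact ((k2.add k1).sub continuousOn_const).mul ((k1.pow 2).sub (smax.pow 2))
  have s1 : ContinuousOn (fun x => v i₁ t x ^ 2) (Icc 0 L) := (sv i₁).pow 2
  have s2 : ContinuousOn (fun x => (v i₁ t x - θ' x / θ x * u i₁ t x) ^ 2) (Icc 0 L) :=
    ((sv i₁).sub ((cθ'.div cθ hθne).mul (su i₁))).pow 2
  have s3 : ContinuousOn (fun x => θ x ^ 3 * Hf (u i₀ t x / θ x) (u i₁ t x / θ x)) (Icc 0 L) :=
    (cθ.pow 3).mul sH
  have s4 : ContinuousOn (fun x => θ x ^ 2 * ∑ k ∈ (Finset.univ.erase i₀).erase i₁, u k t x)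
      (Icc 0 L) := (cθ.pow 2).mul sζ
  have eR : -Dis L (d i₀) (d i₁) θ θ' (u i₀ t) (u i₁ t) (v i₁ t) +
      ∫ x in (0)..L, θ x ^ 2 * ∑ k ∈ (Finset.univ.erase i₀).erase i₁, u k t x =
      ∫ x in (0)..L, (-((d i₁ - d i₀) * v i₁ t x ^ 2 +
        d i₀ * (v i₁ t x - θ' x / θ x * u i₁ t x) ^ 2 +
        θ x ^ 3 * Hf (u i₀ t x / θ x) (u i₁ t x / θ x)) +
        θ x ^ 2 * ∑ k ∈ (Finset.univ.erase i₀).erase i₁, u k t x) := by
    unfold Dis
    have i1 : IntervalIntegrable (fun x => (d i₁ - d i₀) * v i₁ t x ^ 2) volume 0 L :=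
      hII _ (s1.const_mul _)
    have i2 : IntervalIntegrable (fun x => d i₀ * (v i₁ t x - θ' x / θ x * u i₁ t x) ^ 2)
        volume 0 L := hII _ (s2.const_mul _)
    have i3 : IntervalIntegrable (fun x => θ x ^ 3 * Hf (u i₀ t x / θ x) (u i₁ t x / θ x))
        volume 0 L := hII _ s3
    have i4 : IntervalIntegrable (fun x => θ x ^ 2 *
        ∑ k ∈ (Finset.univ.erase i₀).erase i₁, u k t x) volume 0 L := hII _ s4
    have i12 : IntervalIntegrable (fun x => (d i₁ - d i₀) * v i₁ t x ^ 2 +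
        d i₀ * (v i₁ t x - θ' x / θ x * u i₁ t x) ^ 2) volume 0 L := i1.add i2
    have i123 : IntervalIntegrable (fun x => -((d i₁ - d i₀) * v i₁ t x ^ 2 +
        d i₀ * (v i₁ t x - θ' x / θ x * u i₁ t x) ^ 2 +
        θ x ^ 3 * Hf (u i₀ t x / θ x) (u i₁ t x / θ x))) volume 0 L := (i12.add i3).neg
    rw [intervalIntegral.integral_add i123 i4, intervalIntegral.integral_neg,
      intervalIntegral.integral_add i12 i3, intervalIntegral.integral_add i1 i2,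
      intervalIntegral.integral_const_mul, intervalIntegral.integral_const_mul]
  rw [eR, e]
  refine intervalIntegral.integral_mono_on hL.le (hII _ (sgt.sub cJ'))
    (hII _ ((((s1.const_mul _).add (s2.const_mul _)).add s3).neg.add s4)) fun x hx => ?_
  have hθx := hθ.pos x hx
  have hux := hpos t ht x hx
  have hid := two_identity (a := θ x) (a1 := θ' x) (a2 := θ'' x) (m := m x)
    (U := ∑ j, u j t x) (u0 := u i₀ t x) (v0 := v i₀ t x) (w0 := w i₀ t x) (u1 := u i₁ t x)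
    (v1 := v i₁ t x) (w1 := w i₁ t x) (d0 := d i₀) (d1 := d i₁) (q := max (1 - pp t x) 0)
    hθx.ne' hux.ne' (hθ.eq x hx)
  have hid' : gt t x - J' x = _ := hid
  rw [hid']
  set q : ℝ := max (1 - pp t x) 0 with hq
  have hq0 : 0 ≤ q := le_max_right _ _
  have hq1 : q ≤ 1 := max_le (by linarith [hpp t ht x hx]) zero_le_one
  have hζ0 : 0 ≤ ∑ k ∈ (Finset.univ.erase i₀).erase i₁, u k t x :=
    Finset.sum_nonneg fun k _ => hu0 k t ht.le x hx
  have hU : ∑ j, u j t x = u i₀ t x + u i₁ t x +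
      ∑ k ∈ (Finset.univ.erase i₀).erase i₁, u k t x := by
    rw [← Finset.add_sum_erase Finset.univ (fun k => u k t x) (Finset.mem_univ i₀),
      ← Finset.add_sum_erase (Finset.univ.erase i₀) (fun k => u k t x)
        (Finset.mem_erase.2 ⟨hne, Finset.mem_univ i₁⟩)]
    ring
  have hH : θ x ^ 3 * Hf (u i₀ t x / θ x) (u i₁ t x / θ x) =
      (u i₀ t x + u i₁ t x - θ x) * (u i₁ t x ^ 2 - θ x ^ 2 * q ^ 2) := by
    unfold Hf
    have : max (1 - u i₀ t x / θ x) 0 = q := rfl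
    rw [this]
    field_simp
  rw [hH, hU]
  set ζ : ℝ := ∑ k ∈ (Finset.univ.erase i₀).erase i₁, u k t x with hζ
  have hA : 0 ≤ d i₀ * ((v i₀ t x * θ x - u i₀ t x * θ' x) ^ 2 / u i₀ t x ^ 2 *
      (2 * q * (u i₀ t x / θ x) + q ^ 2)) := by
    have := (hd i₀).le
    have h5 : 0 ≤ u i₀ t x / θ x := (hpp t ht x hx).le
    positivity
  have hB : ζ * (θ x ^ 2 * q ^ 2) ≤ ζ * θ x ^ 2 := by
    have h5 : q ^ 2 ≤ 1 := by nlinarith
    have h6 : θ x ^ 2 * q ^ 2 ≤ θ x ^ 2 := by nlinarith [sq_nonneg (θ x)]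
    exact mul_le_mul_of_nonneg_left h6 hζ0
  have hC : 0 ≤ ζ * u i₁ t x ^ 2 := mul_nonneg hζ0 (sq_nonneg _)
  have hD : (θ x - (u i₀ t x + u i₁ t x + ζ)) * (u i₁ t x ^ 2 - θ x ^ 2 * q ^ 2) =
      -((u i₀ t x + u i₁ t x - θ x) * (u i₁ t x ^ 2 - θ x ^ 2 * q ^ 2)) -
        ζ * u i₁ t x ^ 2 + ζ * (θ x ^ 2 * q ^ 2) := by ring
  rw [hD]
  have hE : θ x ^ 2 * ζ = ζ * θ x ^ 2 := mul_comm _ _
  rw [hE]
  linarith

end Pool.Agent.Lib.MP_4fbe7c_an.FC.H54
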